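import Pool.Agent.Y916.Stm
import Pool.Agent.TH600.LC.DiffPS
import Pool.Agent.Y141.GF.Wr
import Pool.Agent.W253.LF.Ost

/-!
# Functional independence of `∫ z^s / T(z) dz` for squarefree `T` (job 431, MP_60829e_nt)
-/

set_option autoImplicit false

open Polynomial

namespace Pool.Agent.Y796.LI

open Pool.Agent.TH600.LC

section gen
variable {k : Type} [Field k]

theorem exists_pair (k : Type) [Field k] :
    ∃ (DF : Derivation k (KK k) (KK k)) (DE : Derivation k (EE k) (EE k)),
    (∀ p : k[X], DF (algebraMap k[X] (KK k) p) = algebraMap k[X] (KK k) (derivative p)) ∧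
    (∀ u, DE (emb k u) = emb k (PowerSeries.derivative k u)) ∧
    (∀ f : KK k, DE (algebraMap (KK k) (EE k) f) = algebraMap (KK k) (EE k) (DF f)) := by
  obtain ⟨DE, hDE⟩ := exists_der_frac (PowerSeries.derivative k)
  obtain ⟨DF, hDF⟩ := exists_der_frac (Polynomial.derivative' (R := k))
  refine ⟨DF, DE, hDF, hDE, fun f => ?_⟩
  obtain ⟨p, q, hq, rfl⟩ := IsFractionRing.div_surjective (A := Polynomial k) f
  have h : ∀ p : k[X], DE (algebraMap (KK k) (EE k) (algebraMap k[X] (KK k) p)) =
      algebraMap (KK k) (EE k) (DF (algebraMap _ _ p)) := by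
    intro p
    rw [algebraMap_kk, hDE, hDF, algebraMap_kk, PowerSeries.derivative_coe]
    rfl
  rw [map_div₀, Derivation.leibniz_div, Derivation.leibniz_div, h, h]
  simp only [smul_eq_mul, map_mul, map_sub, map_pow, map_inv₀]

theorem const_EE [CharZero k] (DE : Derivation k (EE k) (EE k))
    (hDE : ∀ u, DE (emb k u) = emb k (PowerSeries.derivative k u)) (x : EE k) (hx : DE x = 0) :
    ∃ c : k, algebraMap k (EE k) c = x := by
  obtain ⟨a, b, hb, rfl⟩ := IsFractionRing.div_surjective (A := PowerSeries k) x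
  have hb0 : b ≠ 0 := nonZeroDivisors.ne_zero hb
  have hb1 : emb k b ≠ 0 := by
    rw [Ne, map_eq_zero_iff _ emb_injective]
    exact hb0
  have h1 : DE (emb k a) * emb k b = emb k a * DE (emb k b) := by
    have h2 := DE.leibniz (emb k a / emb k b) (emb k b)
    rw [div_mul_cancel₀ _ hb1, hx, smul_zero, add_zero, smul_eq_mul] at h2
    rw [h2]
    field_simp
  rw [hDE, hDE, ← map_mul, ← map_mul] at h1
  obtain ⟨c, hc⟩ := Pool.Agent.Y141.GF.const_of_wr a b hb0 (emb_injective h1)
  refine ⟨c, ?_⟩
  rw [hc, map_mul, mul_div_cancel_right₀ _ hb1, IsScalarTower.algebraMap_apply k (PowerSeries k) (EE k)]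
  rfl

/-- the key step -/
theorem key [CharZero k] (T W A Q : k[X]) (hT : Squarefree T) (hW : W.degree < T.degree)
    (hQ : Q ≠ 0) (hc : IsCoprime A Q)
    (h : Q * Q * W = T * (Q * derivative A - A * derivative Q)) : W = 0 := by
  have hunit : IsUnit Q := by
    by_contra hnu
    obtain ⟨p, hp, hpQ⟩ := WfDvdMonoid.exists_irreducible_factor hnu hQ
    have hpp : Prime p := hp.prime
    obtain ⟨e, R, hR, hQe⟩ := WfDvdMonoid.max_power_factor hQ hp
    have he : e ≠ 0 := by
      rintro rfl
      rw [pow_zero, one_mul] at hQe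
      exact hR (hQe ▸ hpQ)
    obtain ⟨e', rfl⟩ := Nat.exists_eq_succ_of_ne_zero he
    have hpA : ¬ p ∣ A := by
      intro hpA
      exact hp.not_isUnit (hc.isUnit_of_dvd' hpA hpQ)
    have hpd : ¬ p ∣ derivative p := by
      intro hpd
      have h1 : IsCoprime p (derivative p) := hp.separable
      exact hp.not_isUnit (h1.isUnit_of_dvd' dvd_rfl hpd)
    set Z : k[X] := p * R * derivative A - A * (((e' + 1 : ℕ) : k[X]) * derivative p * R + p * derivative R) with hZ
    have hpZ : ¬ p ∣ Z := by
      intro hZ'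
      have h1 : p ∣ A * (((e' + 1 : ℕ) : k[X]) * derivative p * R) := by
        have h2 : A * (((e' + 1 : ℕ) : k[X]) * derivative p * R) = p * (R * derivative A - A * derivative R) - Z := by
          rw [hZ]; ring
        rw [h2]
        exact dvd_sub (dvd_mul_right _ _) hZ'
      rcases hpp.dvd_or_dvd h1 with h2 | h2
      · exact hpA h2
      rcases hpp.dvd_or_dvd h2 with h3 | h3
      · rcases hpp.dvd_or_dvd h3 with h4 | h4
        · have h5 : IsUnit (((e' + 1 : ℕ) : k[X])) := by
            have h6 : (((e' + 1 : ℕ) : k[X])) = C ((e' + 1 : ℕ) : k) := by simp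
            rw [h6]
            exact isUnit_C.2 (isUnit_iff_ne_zero.2 (by exact_mod_cast Nat.succ_ne_zero e'))
          exact hp.not_isUnit (isUnit_of_dvd_unit h4 h5)
        · exact hpd h4
      · exact hR h3
    have hmain : p ^ (e' + 2) * (R * R * W) = T * Z := by
      have hpe : p ^ e' ≠ 0 := pow_ne_zero _ hp.ne_zero
      apply mul_left_cancel₀ hpe
      rw [hQe] at h
      rw [derivative_mul, derivative_pow] at h
      rw [hZ]
      simp only [Nat.succ_eq_add_one, Nat.add_sub_cancel] at h
      have hcast : (C ((e' + 1 : ℕ) : k) : k[X]) = ((e' + 1 : ℕ) : k[X]) := by simp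
      rw [hcast] at h
      linear_combination h
    by_cases hpT : p ∣ T
    · obtain ⟨T₁, rfl⟩ := hpT
      have hpT₁ : ¬ p ∣ T₁ := by
        rintro ⟨T₂, rfl⟩
        exact hp.not_isUnit (hT p ⟨T₂, by ring⟩)
      have h1 : p ^ (e' + 1) * (R * R * W) = T₁ * Z := by
        apply mul_left_cancel₀ hp.ne_zero
        linear_combination hmain
      have h2 : p ∣ T₁ * Z := by
        rw [← h1]
        exact Dvd.dvd.mul_right (dvd_pow_self p (Nat.succ_ne_zero _)) _
      rcases hpp.dvd_or_dvd h2 with h3 | h3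
      · exact hpT₁ h3
      · exact hpZ h3
    · have h2 : p ∣ T * Z := by
        rw [← hmain]
        exact Dvd.dvd.mul_right (dvd_pow_self p (Nat.succ_ne_zero _)) _
      rcases hpp.dvd_or_dvd h2 with h3 | h3
      · exact hpT h3
      · exact hpZ h3
  have h1 : T ∣ Q * Q * W := ⟨_, h⟩
  have h2 : T ∣ W := (IsUnit.dvd_mul_left (hunit.mul hunit)).1 h1
  exact eq_zero_of_dvd_of_degree_lt h2 hW

/-- algebraic independence of primitives of `W_i / T` -/
theorem indep [CharZero k] (n : ℕ) (T : k[X]) (hT : Squarefree T) (hn : n ≤ T.natDegree)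
    (y : Fin n → PowerSeries k)
    (hy : ∀ i, (T : PowerSeries k) * PowerSeries.derivative k (y i) = ((X ^ (i : ℕ) : k[X]) : PowerSeries k)) :
    AlgebraicIndependent (KK k) (fun i => emb k (y i)) := by
  classical
  obtain ⟨DF, DE, hDF, hDE, hc⟩ := exists_pair k
  have hT0 : T ≠ 0 := hT.ne_zero
  have hT1 : algebraMap k[X] (KK k) T ≠ 0 := by
    rw [Ne, map_eq_zero_iff _ (IsFractionRing.injective k[X] (KK k))]
    exact hT0
  have hT2 : emb k (T : PowerSeries k) ≠ 0 := emb_coe_ne hT0
  have : CharZero (EE k) := charZero_of_injective_algebraMap (algebraMap k (EE k)).injective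
  refine Pool.Agent.W253.LF.t_OST k (KK k) (EE k) DF DE hc (const_EE DE hDE) (Fin n) _
    (fun i => algebraMap k[X] (KK k) (X ^ (i : ℕ)) / algebraMap k[X] (KK k) T) (fun i => ?_) ?_
  · rw [hDE, map_div₀, algebraMap_kk, algebraMap_kk, ← hy i, map_mul, mul_div_cancel_left₀ _ hT2]
  intro c f hf
  obtain ⟨A, ⟨Q, hQm⟩, hrel, hAQ⟩ := IsFractionRing.exists_reduced_fraction k[X] f
  have hcop : IsCoprime A Q := hrel.isCoprime
  have hQ0 : Q ≠ 0 := nonZeroDivisors.ne_zero hQm
  have hQ1 : algebraMap k[X] (KK k) Q ≠ 0 := by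
    rw [Ne, map_eq_zero_iff _ (IsFractionRing.injective k[X] (KK k))]
    exact hQ0
  have hf2 : f = algebraMap k[X] (KK k) A / algebraMap k[X] (KK k) Q := by
    rw [← hAQ, IsFractionRing.mk'_eq_div]
  set W : k[X] := ∑ i : Fin n, C (c i) * X ^ (i : ℕ) with hWdef
  -- differentiate
  have h1 : algebraMap k[X] (KK k) W / algebraMap k[X] (KK k) T = DF f := by
    apply (algebraMap (KK k) (EE k)).injective
    rw [← hc, ← hf, map_div₀, hWdef, map_sum, map_sum, map_sum, Finset.sum_div]
    refine Finset.sum_congr rfl fun i _ => ?_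
    rw [Derivation.leibniz, Derivation.map_algebraMap, smul_zero, add_zero, smul_eq_mul, hDE, map_mul, map_mul,
      algebraMap_kk, algebraMap_kk, ← hy i, algebraMap_kk, map_mul]
    have h2 : emb k ((C (c i) : k[X]) : PowerSeries k) = algebraMap k (EE k) (c i) := by
      rw [IsScalarTower.algebraMap_apply k (PowerSeries k) (EE k), Polynomial.coe_C]
      rfl
    rw [h2]
    field_simp
  have h2 : Q * Q * W = T * (Q * derivative A - A * derivative Q) := by
    apply IsFractionRing.injective k[X] (KK k)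
    rw [hf2, Derivation.leibniz_div, hDF, hDF, smul_eq_mul, smul_eq_mul] at h1
    simp only [map_mul, map_sub]
    field_simp at h1
    linear_combination h1
  have hWd : W.degree < T.degree := by
    rw [hWdef]
    refine (degree_sum_fin_lt c).trans_le ?_
    rw [degree_eq_natDegree hT0]
    exact_mod_cast hn
  have hW0 := key T W A Q hT hWd hQ0 hcop h2
  funext i
  have h5 : W.coeff i = c i := by
    rw [hWdef, finsetSum_coeff, Finset.sum_eq_single i]
    · simp
    · intro j _ hj
      rw [coeff_C_mul, coeff_X_pow, if_neg, mul_zero]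
      intro h6
      exact hj (Fin.ext h6.symm)
    · simp
  rw [← h5, hW0]
  simp

/-- linear independence of monomials over the polynomials -/
theorem linIndep [CharZero k] (n Δ : ℕ) (y : Fin n → PowerSeries k)
    (hy : AlgebraicIndependent (KK k) (fun i => emb k (y i))) :
    LinearIndependent k[X] (fun e : Pool.Agent.Y916.Mn n Δ => ∏ s : Fin n, y s ^ (e.1 s : ℕ)) := by
  classical
  rw [Fintype.linearIndependent_iff]
  intro g hg
  let fs : Pool.Agent.Y916.Mn n Δ → (Fin n →₀ ℕ) := fun e => Finsupp.equivFunOnFinite.symm fun i => (e.1 i : ℕ)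
  have hfs : Function.Injective fs := by
    intro e e' hee
    apply Subtype.ext
    funext i
    have := DFunLike.congr_fun hee i
    exact Fin.ext (by simpa [fs] using this)
  have h1 : MvPolynomial.aeval (fun i => emb k (y i))
      (∑ e, MvPolynomial.monomial (fs e) (algebraMap k[X] (KK k) (g e))) = 0 := by
    rw [map_sum]
    have h2 : emb k (∑ e, g e • ∏ s : Fin n, y s ^ (e.1 s : ℕ)) = 0 := by
      rw [hg, map_zero]
    rw [← h2, map_sum]
    refine Finset.sum_congr rfl fun e _ => ?_
    rw [MvPolynomial.aeval_monomial, Finsupp.prod_fintype _ _ (fun _ => pow_zero _), algebraMap_kk, Algebra.smul_def,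
      map_mul, map_prod]
    congr 1
    refine Finset.prod_congr rfl fun i _ => ?_
    rw [map_pow]
    rfl
  have h2 := hy.eq_zero_of_aeval_eq_zero _ h1
  intro e
  have h3 := congrArg (MvPolynomial.coeff (fs e)) h2
  rw [MvPolynomial.coeff_sum, Finset.sum_eq_single e] at h3
  · rw [MvPolynomial.coeff_monomial, if_pos rfl, MvPolynomial.coeff_zero] at h3
    exact (map_eq_zero_iff _ (IsFractionRing.injective k[X] (KK k))).1 h3
  · intro e' _ he'
    rw [MvPolynomial.coeff_monomial, if_neg]
    intro h4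
    exact he' (hfs h4)
  · simp

end gen

open Pool.Agent.Y916 Pool.Agent.Y113 in
theorem der_F (T : ℤ[X]) (hT : T.coeff 0 = 1) (s : ℕ) :
    ps T * PowerSeries.derivative ℚ (F T s) = ((X ^ s : ℚ[X]) : PowerSeries ℚ) := by
  have h1 : PowerSeries.derivative ℚ (F T s) = PowerSeries.X ^ s * U T := by
    ext m
    rw [PowerSeries.coeff_derivative, F, PowerSeries.coeff_mk, PowerSeries.coeff_X_pow_mul']
    have hm : ((m : ℚ) + 1) ≠ 0 := by positivity
    by_cases h : s ≤ m
    · rw [if_neg (by omega), if_pos h, Nat.add_sub_cancel]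
      push_cast
      field_simp
    · rw [if_pos (by omega), if_neg h, zero_mul]
  have h2 : PowerSeries.constantCoeff (ps T) ≠ 0 := by
    rw [ps, Polynomial.constantCoeff_coe, coeff_map, hT]
    simp
  rw [h1, U, mul_left_comm, PowerSeries.mul_inv_cancel _ h2, mul_one, Polynomial.coe_pow, Polynomial.coe_X]

/-- The statement (LI) of helper916. -/
theorem t_LI : Pool.Agent.Y916.S_LI := by
  intro n Δ T hT hn hsf
  have hn' : (T.map (Int.castRingHom ℚ)).natDegree = n := by
    rw [natDegree_map_eq_of_injective (Int.cast_injective (α := ℚ)), hn]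
  have h1 := indep n (T.map (Int.castRingHom ℚ)) hsf hn'.ge (fun s : Fin n => Pool.Agent.Y916.F T s)
    (fun i => der_F T hT i)
  exact linIndep n Δ _ h1

end Pool.Agent.Y796.LI
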